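import Mathlib

open Polynomial Set

namespace Pool.Agent.Results.MP_d93447_an.FewIntersections

noncomputable section

/-- `C²` bump `(max (1 - t²) 0)^3`. -/
def bump (t : ℝ) : ℝ := (max (1 - t ^ 2) 0) ^ 3
/-- its derivative -/
def dbump (t : ℝ) : ℝ := -6 * t * (max (1 - t ^ 2) 0) ^ 2
/-- its second derivative -/
def ddbump (t : ℝ) : ℝ := -6 * (max (1 - t ^ 2) 0) ^ 2 + 24 * t ^ 2 * (max (1 - t ^ 2) 0)

lemma hasDerivAt_posPow (n : ℕ) (s : ℝ) :
    HasDerivAt (fun s : ℝ => (max s 0) ^ (n + 2)) ((n + 2 : ℕ) * (max s 0) ^ (n + 1)) s := by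
  rcases lt_trichotomy s 0 with hs | hs | hs
  · have h1 : (fun s : ℝ => (max s 0) ^ (n + 2)) =ᶠ[nhds s] fun _ => 0 := by
      filter_upwards [Iio_mem_nhds hs] with t ht
      rw [max_eq_right (le_of_lt ht)]; simp
    have h2 : ((n + 2 : ℕ) : ℝ) * (max s 0) ^ (n + 1) = 0 := by
      rw [max_eq_right hs.le]; simp
    rw [h2]
    exact (hasDerivAt_const s (0 : ℝ)).congr_of_eventuallyEq h1
  · subst hs
    have h2 : ((n + 2 : ℕ) : ℝ) * (max (0 : ℝ) 0) ^ (n + 1) = 0 := by simp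
    rw [h2, hasDerivAt_iff_isLittleO]
    simp only [max_self, sub_zero, smul_zero, ne_eq, Nat.add_eq_zero_iff, OfNat.ofNat_ne_zero,
      and_false, not_false_eq_true, zero_pow]
    have : (fun x : ℝ => (max x 0) ^ (n + 2)) =O[nhds 0] fun x => x ^ (n + 2) := by
      apply Asymptotics.IsBigO.of_bound 1
      filter_upwards with x
      rw [one_mul, norm_pow, norm_pow]
      gcongr
      rw [Real.norm_eq_abs, Real.norm_eq_abs, abs_of_nonneg (le_max_right _ _)]
      exact max_le (le_abs_self x) (abs_nonneg x)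
    refine this.trans_isLittleO ?_
    have h3 := Asymptotics.isLittleO_pow_pow (𝕜 := ℝ) (m := 1) (n := n + 2) (by omega)
    simpa using h3
  · have h1 : (fun s : ℝ => (max s 0) ^ (n + 2)) =ᶠ[nhds s] fun s => s ^ (n + 2) := by
      filter_upwards [Ioi_mem_nhds hs] with t ht
      rw [max_eq_left (le_of_lt ht)]
    rw [max_eq_left hs.le]
    have := hasDerivAt_pow (n + 2) s
    exact this.congr_of_eventuallyEq h1

lemma hasDerivAt_inner (t : ℝ) : HasDerivAt (fun t : ℝ => 1 - t ^ 2) (-(2 * t)) t := by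
  simpa using (hasDerivAt_pow 2 t).const_sub 1

lemma hasDerivAt_bump (t : ℝ) : HasDerivAt bump (dbump t) t := by
  have h := (hasDerivAt_posPow 1 (1 - t ^ 2)).comp t (hasDerivAt_inner t)
  have e : ((1 + 2 : ℕ) : ℝ) * (max (1 - t ^ 2) 0) ^ (1 + 1) * (-(2 * t)) = dbump t := by
    simp only [dbump]; push_cast; ring
  rw [e] at h
  exact h

lemma hasDerivAt_dbump (t : ℝ) : HasDerivAt dbump (ddbump t) t := by
  have h := (hasDerivAt_posPow 0 (1 - t ^ 2)).comp t (hasDerivAt_inner t)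
  have h2 := ((hasDerivAt_id t).const_mul (-6)).mul h
  have e : (-6 * 1) * ((fun s : ℝ => (max s 0) ^ (0 + 2)) ∘ fun t => 1 - t ^ 2) t
      + (-6) * id t * (((0 + 2 : ℕ) : ℝ) * (max (1 - t ^ 2) 0) ^ (0 + 1) * (-(2 * t)))
      = ddbump t := by
    simp only [ddbump, Function.comp, id]; push_cast; ring
  rw [e] at h2
  exact h2

lemma continuous_ddbump : Continuous ddbump := by
  unfold ddbump; fun_prop

lemma bump_eq_zero {t : ℝ} (h : 1 ≤ |t|) : bump t = 0 := by
  have : 1 - t ^ 2 ≤ 0 := by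
    have : 1 ≤ t ^ 2 := by rw [← sq_abs]; nlinarith
    linarith
  simp [bump, max_eq_right this]

lemma dbump_eq_zero {t : ℝ} (h : 1 ≤ |t|) : dbump t = 0 := by
  have : 1 - t ^ 2 ≤ 0 := by
    have : 1 ≤ t ^ 2 := by rw [← sq_abs]; nlinarith
    linarith
  simp [dbump, max_eq_right this]

lemma bump_eq {t : ℝ} (h : |t| ≤ 1) : bump t = (1 - t ^ 2) ^ 3 := by
  have : 0 ≤ 1 - t ^ 2 := by
    have : t ^ 2 ≤ 1 := by rw [← sq_abs]; nlinarith [abs_nonneg t]
    linarith
  simp [bump, max_eq_left this]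

lemma bump_nonneg (t : ℝ) : 0 ≤ bump t := by unfold bump; positivity

lemma bump_le (t : ℝ) : bump t ≤ 1 := by
  unfold bump
  apply pow_le_one₀ (le_max_right _ _)
  exact max_le (by nlinarith) zero_le_one

lemma dbump_le (t : ℝ) : |dbump t| ≤ 2 := by
  by_cases h : 1 ≤ |t|
  · rw [dbump_eq_zero h]; simp
  · push Not at h
    have h0 : 0 ≤ 1 - t ^ 2 := by
      have : t ^ 2 ≤ 1 := by rw [← sq_abs]; nlinarith [abs_nonneg t]
      linarith
    unfold dbump
    rw [max_eq_left h0, abs_mul, abs_mul, abs_of_nonneg (by positivity : 0 ≤ (1 - t ^ 2) ^ 2)]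
    rw [← sq_abs t]
    set s := |t| with hs
    have hs0 : 0 ≤ s := abs_nonneg t
    norm_num
    -- 6 s (1-s²)² ≤ 2
    nlinarith [sq_nonneg (s * (1 - s ^ 2)), sq_nonneg (s ^ 2 - 1 / 5), sq_nonneg (s - 9 / 20),
      mul_nonneg hs0 (sq_nonneg (s ^ 2 - 1 / 5)), mul_nonneg hs0 (sub_nonneg.2 h.le),
      mul_nonneg (mul_nonneg hs0 (sub_nonneg.2 h.le)) hs0,
      mul_nonneg hs0 (sq_nonneg (s - 9 / 20))]

variable (m : ℕ) (δ : ℝ)

/-- parabola with `m` small bumps -/
def Y (x : ℝ) : ℝ := x ^ 2 + ∑ i ∈ Finset.range m, δ * bump ((x - i / m) / δ - 1)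
/-- its derivative -/
def DY (x : ℝ) : ℝ := 2 * x + ∑ i ∈ Finset.range m, dbump ((x - i / m) / δ - 1)
/-- its second derivative -/
def DDY (x : ℝ) : ℝ := 2 + ∑ i ∈ Finset.range m, (1 / δ) * ddbump ((x - i / m) / δ - 1)

lemma hasDerivAt_arg (c x : ℝ) : HasDerivAt (fun x : ℝ => (x - c) / δ - 1) (1 / δ) x := by
  simpa using ((((hasDerivAt_id x).sub_const c).div_const δ).sub_const 1)

lemma hasDerivAt_Y (hδ : δ ≠ 0) (x : ℝ) : HasDerivAt (Y m δ) (DY m δ x) x := by
  unfold Y DY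
  have h1 : HasDerivAt (fun x : ℝ => x ^ 2) (2 * x) x := by simpa using hasDerivAt_pow 2 x
  refine h1.add ?_
  apply HasDerivAt.fun_sum
  intro i _
  have := ((hasDerivAt_bump ((x - i / m) / δ - 1)).comp x (hasDerivAt_arg δ (i / m) x)).const_mul δ
  have e : δ * (dbump ((x - i / m) / δ - 1) * (1 / δ)) = dbump ((x - i / m) / δ - 1) := by
    field_simp
  rw [e] at this
  exact this

lemma hasDerivAt_DY (x : ℝ) : HasDerivAt (DY m δ) (DDY m δ x) x := by
  unfold DY DDY
  have h1 : HasDerivAt (fun x : ℝ => 2 * x) 2 x := by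
    simpa using (hasDerivAt_id x).const_mul (2 : ℝ)
  refine h1.add ?_
  apply HasDerivAt.fun_sum
  intro i _
  have := (hasDerivAt_dbump ((x - i / m) / δ - 1)).comp x (hasDerivAt_arg δ (i / m) x)
  rw [mul_comm] at this
  exact this

lemma continuous_DDY : Continuous (DDY m δ) := by
  unfold DDY
  refine continuous_const.add (continuous_finsetSum _ fun i _ => ?_)
  exact continuous_const.mul (continuous_ddbump.comp (by fun_prop))

lemma contDiff_Y (hδ : δ ≠ 0) : ContDiff ℝ 2 (Y m δ) := by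
  have d1 : deriv (Y m δ) = DY m δ := funext fun x => (hasDerivAt_Y m δ hδ x).deriv
  have d2 : deriv (DY m δ) = DDY m δ := funext fun x => (hasDerivAt_DY m δ x).deriv
  rw [show (2 : WithTop ℕ∞) = 1 + 1 by norm_num, contDiff_succ_iff_deriv]
  refine ⟨fun x => (hasDerivAt_Y m δ hδ x).differentiableAt, by simp, ?_⟩
  rw [d1, show (1 : WithTop ℕ∞) = 0 + 1 by norm_num, contDiff_succ_iff_deriv]
  refine ⟨fun x => (hasDerivAt_DY m δ x).differentiableAt, by simp, ?_⟩
  rw [d2, contDiff_zero]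
  exact continuous_DDY m δ

variable {m δ}

/-- separation of bumps -/
lemma arg_far (hm : 0 < m) (hδ : 0 < δ) (hδm : 2 * δ ≤ 1 / m) {x : ℝ} {i j : ℕ} (hij : i ≠ j)
    (hi : |(x - i / m) / δ - 1| < 1) : 1 ≤ |(x - j / m) / δ - 1| := by
  have hm' : (0 : ℝ) < m := by exact_mod_cast hm
  rw [abs_lt] at hi
  have h1 : 0 < (x - i / m) / δ := by linarith [hi.1]
  have h2 : (x - i / m) / δ < 2 := by linarith [hi.2]
  have h1' : 0 < x - i / m := by
    by_contra hcon
    push Not at hcon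
    have := div_nonpos_of_nonpos_of_nonneg hcon hδ.le
    linarith
  rw [div_lt_iff₀ hδ] at h2
  rcases lt_or_gt_of_ne hij with h | h
  · -- j > i
    have h3 : (i : ℝ) + 1 ≤ j := by exact_mod_cast h
    have h4 : (i : ℝ) / m + 1 / m ≤ j / m := by rw [← add_div]; gcongr
    have h5 : (x - j / m) / δ ≤ 0 := div_nonpos_of_nonpos_of_nonneg (by linarith) hδ.le
    rw [abs_of_nonpos (by linarith)]
    linarith
  · have h3 : (j : ℝ) + 1 ≤ i := by exact_mod_cast h
    have h4 : (j : ℝ) / m + 1 / m ≤ i / m := by rw [← add_div]; gcongr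
    have h5 : 2 ≤ (x - j / m) / δ := by
      rw [le_div_iff₀ hδ]; linarith
    rw [abs_of_nonneg (by linarith)]
    linarith

lemma sum_single (hm : 0 < m) (hδ : 0 < δ) (hδm : 2 * δ ≤ 1 / m) (g : ℝ → ℝ)
    (hg : ∀ t, 1 ≤ |t| → g t = 0) {x : ℝ} {i : ℕ} (him : i < m)
    (hi : |(x - i / m) / δ - 1| < 1) :
    ∑ j ∈ Finset.range m, g ((x - j / m) / δ - 1) = g ((x - i / m) / δ - 1) := by
  apply Finset.sum_eq_single_of_mem i (Finset.mem_range.2 him)
  intro j _ hj
  exact hg _ (arg_far hm hδ hδm hj.symm hi)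

lemma sum_none (g : ℝ → ℝ) (hg : ∀ t, 1 ≤ |t| → g t = 0) {x : ℝ}
    (hi : ∀ i < m, 1 ≤ |(x - i / m) / δ - 1|) :
    ∑ j ∈ Finset.range m, g ((x - j / m) / δ - 1) = 0 := by
  apply Finset.sum_eq_zero
  intro j hj
  exact hg _ (hi j (Finset.mem_range.1 hj))

lemma sum_abs_le (hm : 0 < m) (hδ : 0 < δ) (hδm : 2 * δ ≤ 1 / m) (g : ℝ → ℝ)
    (hg : ∀ t, 1 ≤ |t| → g t = 0) {B : ℝ} (hB : ∀ t, |g t| ≤ B) (x : ℝ) :
    |∑ j ∈ Finset.range m, g ((x - j / m) / δ - 1)| ≤ B := by
  by_cases h : ∃ i < m, |(x - i / m) / δ - 1| < 1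
  · obtain ⟨i, him, hi⟩ := h
    rw [sum_single hm hδ hδm g hg him hi]
    exact hB _
  · push Not at h
    rw [sum_none g hg h]
    simpa using (abs_nonneg _).trans (hB 0)

lemma Y_eq (x : ℝ) : Y m δ x = x ^ 2 + δ * ∑ i ∈ Finset.range m, bump ((x - i / m) / δ - 1) := by
  rw [Y, Finset.mul_sum]

lemma Y_ge (hδ : 0 < δ) (x : ℝ) : x ^ 2 ≤ Y m δ x := by
  rw [Y_eq]
  have : 0 ≤ ∑ i ∈ Finset.range m, bump ((x - i / m) / δ - 1) :=
    Finset.sum_nonneg fun i _ => bump_nonneg _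
  nlinarith

lemma Y_le (hm : 0 < m) (hδ : 0 < δ) (hδm : 2 * δ ≤ 1 / m) (x : ℝ) : Y m δ x ≤ x ^ 2 + δ := by
  rw [Y_eq]
  have := (abs_le.1 (sum_abs_le hm hδ hδm bump (fun t => bump_eq_zero) (B := 1)
    (fun t => by rw [abs_of_nonneg (bump_nonneg t)]; exact bump_le t) x)).2
  nlinarith

/-- the polynomial describing `Y - line` in a bump region -/
def pol (δ c a b : ℝ) : ℝ[X] :=
  X ^ 2 + C δ * (1 - ((X - C c) * C (1 / δ) - 1) ^ 2) ^ 3 - C a - C b * X

lemma pol_degree (c a b : ℝ) : (pol δ c a b).natDegree ≤ 6 := by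
  unfold pol
  compute_degree!

lemma pol_ne_zero (hδ : 0 < δ) (c a b : ℝ) : pol δ c a b ≠ 0 := by
  intro h
  have h1 : ∀ x, eval x (pol δ c a b) = 0 := by intro x; rw [h]; simp
  have h2 : ∀ t : ℝ, (c + δ * (t + 1)) ^ 2 + δ * (1 - t ^ 2) ^ 3 - a - b * (c + δ * (t + 1)) = 0 := by
    intro t
    have := h1 (c + δ * (t + 1))
    simp only [pol, eval_sub, eval_add, eval_mul, eval_pow, eval_X, eval_C, eval_one] at this
    have e : (c + δ * (t + 1) - c) * (1 / δ) - 1 = t := by field_simp; ring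
    rw [e] at this
    exact this
  -- third-order differences kill the quadratic part
  have e0 := h2 0
  have e1 := h2 1
  have e1' := h2 (-1)
  have e2 := h2 2
  have e2' := h2 (-2)
  have : δ * (2 * ((1 - 2 ^ 2) ^ 3 : ℝ) - 8 * (1 - 1 ^ 2) ^ 3 + 6 * (1 - 0 ^ 2) ^ 3) = 0 := by
    linear_combination e2 + e2' - 4 * (e1 + e1') + 6 * e0
  norm_num at this
  linarith


lemma pol_eval (hm : 0 < m) (hδ : 0 < δ) (hδm : 2 * δ ≤ 1 / m) {x a b : ℝ} {i : ℕ} (him : i < m)
    (hi : |(x - i / m) / δ - 1| < 1) : eval x (pol δ (i / m) a b) = Y m δ x - a - b * x := by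
  rw [Y_eq, sum_single hm hδ hδm bump (fun t => bump_eq_zero) him hi, bump_eq hi.le]
  simp only [pol, eval_sub, eval_add, eval_mul, eval_pow, eval_X, eval_C, eval_one]
  rw [mul_one_div]

/-- the polynomial for the points outside all bump regions -/
def pol0 (a b : ℝ) : ℝ[X] := X ^ 2 - C b * X - C a

lemma pol0_degree (a b : ℝ) : (pol0 a b).natDegree = 2 := by
  unfold pol0
  compute_degree!

lemma pol0_ne_zero (a b : ℝ) : pol0 a b ≠ 0 := by
  intro h
  have := pol0_degree a b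
  rw [h] at this
  simp at this

lemma pol0_eval {x a b : ℝ} (hi : ∀ i < m, 1 ≤ |(x - i / m) / δ - 1|) :
    eval x (pol0 a b) = Y m δ x - a - b * x := by
  rw [Y_eq, sum_none bump (fun t => bump_eq_zero) hi]
  simp only [pol0, eval_sub, eval_mul, eval_pow, eval_X, eval_C]
  ring

lemma roots_card (p : ℝ[X]) (n : ℕ) (h : p.natDegree ≤ n) : p.roots.toFinset.card ≤ n :=
  (Multiset.toFinset_card_le _).trans ((Polynomial.card_roots' p).trans h)

lemma mem_roots_finset {p : ℝ[X]} (hp : p ≠ 0) {x : ℝ} (h : eval x p = 0) :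
    x ∈ p.roots.toFinset := by
  rw [Multiset.mem_toFinset, Polynomial.mem_roots hp]
  exact h

/-- three different bump regions cannot be met by one line -/
lemma no_three (hm : 0 < m) (hδ : 0 < δ) (hδm : 8 * δ ≤ 1 / m ^ 2) {a b : ℝ} {i j k : ℕ}
    (hij : i < j) (hjk : j < k)
    {p q r : ℝ} (hp : |(p - i / m) / δ - 1| < 1) (hq : |(q - j / m) / δ - 1| < 1)
    (hr : |(r - k / m) / δ - 1| < 1)
    (hyp : Y m δ p = a + b * p) (hyq : Y m δ q = a + b * q) (hyr : Y m δ r = a + b * r) :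
    False := by
  have hm' : (0 : ℝ) < m := by exact_mod_cast hm
  have hm1 : (1 : ℝ) ≤ m := by exact_mod_cast hm
  have key : ∀ {x : ℝ} {l : ℕ}, |(x - l / m) / δ - 1| < 1 → l / m < x ∧ x < l / m + 2 * δ := by
    intro x l h
    rw [abs_lt] at h
    have h1 : 0 < (x - l / m) / δ := by linarith [h.1]
    have h2 : (x - l / m) / δ < 2 := by linarith [h.2]
    rw [div_lt_iff₀ hδ] at h2
    constructor
    · by_contra hcon
      push Not at hcon
      have := div_nonpos_of_nonpos_of_nonneg (sub_nonpos.2 hcon) hδ.le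
      linarith
    · linarith
  have h1m : (1 : ℝ) / m ^ 2 ≤ 1 / m := by
    apply one_div_le_one_div_of_le hm'
    nlinarith
  have hδm2 : 2 * δ ≤ 1 / m := by linarith
  obtain ⟨hp1, hp2⟩ := key hp
  obtain ⟨hq1, hq2⟩ := key hq
  obtain ⟨hr1, hr2⟩ := key hr
  have h3 : (i : ℝ) / m + 1 / m ≤ j / m := by
    rw [← add_div]
    have : (i : ℝ) + 1 ≤ j := by exact_mod_cast hij
    gcongr
  have h4 : (j : ℝ) / m + 1 / m ≤ k / m := by
    rw [← add_div]
    have : (j : ℝ) + 1 ≤ k := by exact_mod_cast hjk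
    gcongr
  have hqp : 1 / m - 2 * δ ≤ q - p := by linarith
  have hrq : 1 / m - 2 * δ ≤ r - q := by linarith
  have hs : 3 / 4 * (1 / m) ≤ 1 / (m : ℝ) - 2 * δ := by linarith
  have hs0 : (0 : ℝ) < 1 / m := by positivity
  have hprod : (3 / 4 * (1 / m)) * (3 / 4 * (1 / m)) ≤ (q - p) * (r - q) := by
    apply mul_le_mul <;> linarith
  have hprod2 : δ < (q - p) * (r - q) := by
    have : (1 : ℝ) / m ^ 2 = (1 / m) * (1 / m) := by field_simp
    nlinarith
  have yp := Y_ge (m := m) hδ p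
  have yr := Y_ge (m := m) hδ r
  have yq := Y_le hm hδ hδm2 q
  rw [hyp] at yp
  rw [hyq] at yq
  rw [hyr] at yr
  -- chord inequality
  have hpq : 0 < q - p := by linarith
  have hqr : 0 < r - q := by linarith
  have hpr : 0 < r - p := by linarith
  have h5 : (r - q) * p ^ 2 + (q - p) * r ^ 2 = (r - p) * (q ^ 2 + (q - p) * (r - q)) := by ring
  have h6 : (r - q) * (a + b * p) + (q - p) * (a + b * r) = (r - p) * (a + b * q) := by ring
  nlinarith [mul_le_mul_of_nonneg_left yp hqr.le, mul_le_mul_of_nonneg_left yr hpq.le,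
    mul_le_mul_of_nonneg_left yq hpr.le, mul_lt_mul_of_pos_left hprod2 hpr]

lemma solutions_le (hm : 0 < m) (hδ : 0 < δ) (hδm : 8 * δ ≤ 1 / m ^ 2) (a b : ℝ) :
    {x : ℝ | Y m δ x = a + b * x}.encard ≤ 14 := by
  classical
  have hm' : (0 : ℝ) < m := by exact_mod_cast hm
  have hm1 : (1 : ℝ) ≤ m := by exact_mod_cast hm
  have h1m : (1 : ℝ) / m ^ 2 ≤ 1 / m := by
    apply one_div_le_one_div_of_le hm'
    nlinarith
  have hδm2 : 2 * δ ≤ 1 / m := by linarith
  set J : Finset ℕ := (Finset.range m).filter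
    fun i => ∃ x : ℝ, |(x - i / m) / δ - 1| < 1 ∧ Y m δ x = a + b * x with hJ
  have cover : ∃ i k : ℕ, {x : ℝ | Y m δ x = a + b * x} ⊆
      ↑((pol0 a b).roots.toFinset ∪ ((pol δ (i / m) a b).roots.toFinset ∪
        (pol δ (k / m) a b).roots.toFinset)) := by
    by_cases hJe : J.Nonempty
    · refine ⟨J.min' hJe, J.max' hJe, ?_⟩
      intro x hx
      simp only [Finset.coe_union, Set.mem_union, Finset.mem_coe]
      have hx' : Y m δ x = a + b * x := hx
      by_cases h : ∃ j < m, |(x - j / m) / δ - 1| < 1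
      · obtain ⟨j, hjm, hj⟩ := h
        have hjJ : j ∈ J := Finset.mem_filter.2 ⟨Finset.mem_range.2 hjm, x, hj, hx⟩
        have h1 := J.min'_le j hjJ
        have h2 := J.le_max' j hjJ
        right
        rcases eq_or_lt_of_le h1 with h3 | h3
        · left
          rw [h3]
          apply mem_roots_finset (pol_ne_zero hδ _ _ _)
          rw [pol_eval hm hδ hδm2 hjm hj, hx']; ring
        · rcases eq_or_lt_of_le h2 with h4 | h4
          · right
            rw [← h4]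
            apply mem_roots_finset (pol_ne_zero hδ _ _ _)
            rw [pol_eval hm hδ hδm2 hjm hj, hx']; ring
          · exfalso
            obtain ⟨-, p, hp1, hp2⟩ := Finset.mem_filter.1 (J.min'_mem hJe)
            obtain ⟨-, r, hr1, hr2⟩ := Finset.mem_filter.1 (J.max'_mem hJe)
            exact no_three hm hδ hδm h3 h4 hp1 hj hr1 hp2 hx' hr2
      · push Not at h
        left
        apply mem_roots_finset (pol0_ne_zero _ _)
        rw [pol0_eval h, hx']; ring
    · refine ⟨0, 0, ?_⟩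
      intro x hx
      have hx' : Y m δ x = a + b * x := hx
      simp only [Finset.coe_union, Set.mem_union, Finset.mem_coe]
      left
      apply mem_roots_finset (pol0_ne_zero _ _)
      have h : ∀ i < m, 1 ≤ |(x - i / m) / δ - 1| := by
        intro i him
        by_contra hcon
        push Not at hcon
        exact hJe ⟨i, Finset.mem_filter.2 ⟨Finset.mem_range.2 him, x, hcon, hx⟩⟩
      rw [pol0_eval h, hx']; ring
  obtain ⟨i, k, hcov⟩ := cover
  refine (Set.encard_le_encard hcov).trans ?_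
  rw [Set.encard_coe_eq_coe_finsetCard]
  have h1 := Finset.card_union_le (pol0 a b).roots.toFinset
    ((pol δ (i / m) a b).roots.toFinset ∪ (pol δ (k / m) a b).roots.toFinset)
  have h2 := Finset.card_union_le (pol δ (i / m) a b).roots.toFinset
    (pol δ (k / m) a b).roots.toFinset
  have h3 := roots_card (pol0 a b) 2 (pol0_degree a b).le
  have h4 := roots_card (pol δ (i / m) a b) 6 (pol_degree _ _ _)
  have h5 := roots_card (pol δ (k / m) a b) 6 (pol_degree _ _ _)
  exact_mod_cast (by omega : _ ≤ 14)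

lemma DY_left (hm : 0 < m) (hδ : 0 < δ) (hδm : 2 * δ ≤ 1 / m) {i : ℕ} (him : i < m) :
    DY m δ (i / m + δ / 2) - DY m δ (i / m) = δ + 27 / 16 := by
  have h1 : ∑ j ∈ Finset.range m, dbump (((i : ℝ) / m + δ / 2 - j / m) / δ - 1) = 27 / 16 := by
    have e : ((i : ℝ) / m + δ / 2 - i / m) / δ - 1 = -(1 / 2) := by field_simp; ring
    rw [sum_single hm hδ hδm dbump (fun t => dbump_eq_zero) him (by rw [e]; norm_num [abs_of_pos]), e]
    unfold dbump
    rw [max_eq_left (by norm_num)]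
    norm_num
  have h2 : ∑ j ∈ Finset.range m, dbump (((i : ℝ) / m - j / m) / δ - 1) = 0 := by
    apply sum_none dbump (fun t => dbump_eq_zero)
    intro j _
    have hm' : (0 : ℝ) < m := by exact_mod_cast hm
    rcases le_or_gt i j with h | h
    · have h3 : (i : ℝ) / m ≤ j / m := by gcongr
      have h5 : ((i : ℝ) / m - j / m) / δ ≤ 0 := div_nonpos_of_nonpos_of_nonneg (by linarith) hδ.le
      rw [abs_of_nonpos (by linarith)]
      linarith
    · have h3 : (j : ℝ) + 1 ≤ i := by exact_mod_cast h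
      have h4 : (j : ℝ) / m + 1 / m ≤ i / m := by rw [← add_div]; gcongr
      have h5 : 2 ≤ ((i : ℝ) / m - j / m) / δ := by
        rw [le_div_iff₀ hδ]; linarith
      rw [abs_of_nonneg (by linarith)]
      linarith
  rw [DY, DY, h1, h2]; ring

lemma integral_ge (hm : 0 < m) (hδ : 0 < δ) (hδm : 2 * δ ≤ 1 / m) :
    (m : ℝ) ≤ ∫ x in (0 : ℝ)..1, |DDY m δ x| := by
  have hm' : (0 : ℝ) < m := by exact_mod_cast hm
  have hcont : Continuous fun x => |DDY m δ x| := (continuous_DDY m δ).abs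
  have hsum := intervalIntegral.sum_integral_adjacent_intervals (f := fun x => |DDY m δ x|)
    (μ := MeasureTheory.volume) (a := fun i : ℕ => (i : ℝ) / m) (n := m)
    (fun k _ => hcont.intervalIntegrable _ _)
  simp only [Nat.cast_zero, zero_div, div_self hm'.ne'] at hsum
  rw [← hsum]
  have h1 : ∀ i ∈ Finset.range m, (1 : ℝ) ≤
      ∫ x in ((i : ℝ) / m)..(((i + 1 : ℕ) : ℝ) / m), |DDY m δ x| := by
    intro i hi
    have him := Finset.mem_range.1 hi
    have hle : (i : ℝ) / m + δ / 2 ≤ ((i + 1 : ℕ) : ℝ) / m := by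
      push_cast
      rw [add_div]
      linarith
    have hsplit := intervalIntegral.integral_add_adjacent_intervals
      (hcont.intervalIntegrable (μ := MeasureTheory.volume) ((i : ℝ) / m) ((i : ℝ) / m + δ / 2))
      (hcont.intervalIntegrable ((i : ℝ) / m + δ / 2) (((i + 1 : ℕ) : ℝ) / m))
    rw [← hsplit]
    have hnn : 0 ≤ ∫ x in ((i : ℝ) / m + δ / 2)..(((i + 1 : ℕ) : ℝ) / m), |DDY m δ x| :=
      intervalIntegral.integral_nonneg hle fun x _ => abs_nonneg _
    have hftc : ∫ x in ((i : ℝ) / m)..((i : ℝ) / m + δ / 2), DDY m δ x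
        = DY m δ (i / m + δ / 2) - DY m δ (i / m) :=
      intervalIntegral.integral_eq_sub_of_hasDerivAt (fun x _ => hasDerivAt_DY m δ x)
        ((continuous_DDY m δ).intervalIntegrable _ _)
    rw [DY_left hm hδ hδm him] at hftc
    have habs := intervalIntegral.abs_integral_le_integral_abs (f := DDY m δ)
      (μ := MeasureTheory.volume) (a := (i : ℝ) / m) (b := (i : ℝ) / m + δ / 2) (by linarith)
    rw [hftc] at habs
    have := le_abs_self (δ + 27 / 16)
    linarith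
  calc (m : ℝ) = ∑ i ∈ Finset.range m, (1 : ℝ) := by simp
    _ ≤ _ := Finset.sum_le_sum h1

/-- With `M = 4` and `N = 15`: for every `K` there is a `C²` function with `|y|, |y'| ≤ 4` on
`[0,1]`, total curvature at least `K`, meeting every line in at most `14` points. -/
theorem result : ∃ M N : ℕ, 0 < M ∧ 0 < N ∧ ∀ K : ℝ, ∃ y : ℝ → ℝ, ContDiff ℝ 2 y ∧
    (∀ x ∈ Icc (0 : ℝ) 1, |y x| ≤ M) ∧ (∀ x ∈ Icc (0 : ℝ) 1, |deriv y x| ≤ M) ∧
    K ≤ ∫ x in (0 : ℝ)..1, |deriv (deriv y) x| ∧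
    ∀ a b : ℝ, {x | x ∈ Icc (0 : ℝ) 1 ∧ y x = a + b * x}.encard ≤ (N - 1 : ℕ) := by
  refine ⟨4, 15, by norm_num, by norm_num, fun K => ?_⟩
  obtain ⟨m, hm⟩ := exists_nat_ge (max K 1)
  have hm1 : (1 : ℝ) ≤ m := (le_max_right _ _).trans hm
  have hmK : K ≤ m := (le_max_left _ _).trans hm
  have hm0 : 0 < m := by exact_mod_cast (lt_of_lt_of_le one_pos hm1)
  have hm' : (0 : ℝ) < m := by exact_mod_cast hm0
  set δ : ℝ := 1 / (8 * m ^ 2) with hδdef
  have hδ : 0 < δ := by positivity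
  have hδm : 8 * δ ≤ 1 / m ^ 2 := by
    apply le_of_eq; rw [hδdef]; field_simp
  have h1m : (1 : ℝ) / m ^ 2 ≤ 1 / m := by
    apply one_div_le_one_div_of_le hm'
    nlinarith
  have h1m' : (1 : ℝ) / m ≤ 1 := by rw [div_le_one hm']; exact hm1
  have hδm2 : 2 * δ ≤ 1 / m := by linarith
  have d1 : deriv (Y m δ) = DY m δ := funext fun x => (hasDerivAt_Y m δ hδ.ne' x).deriv
  have d2 : deriv (DY m δ) = DDY m δ := funext fun x => (hasDerivAt_DY m δ x).deriv
  refine ⟨Y m δ, contDiff_Y m δ hδ.ne', ?_, ?_, ?_, ?_⟩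
  · rintro x ⟨hx0, hx1⟩
    have h1 := Y_ge (m := m) hδ x
    have h2 := Y_le hm0 hδ hδm2 x
    rw [abs_of_nonneg (by nlinarith)]
    push_cast
    nlinarith
  · rintro x ⟨hx0, hx1⟩
    rw [d1, DY]
    have h1 := sum_abs_le hm0 hδ hδm2 dbump (fun t => dbump_eq_zero) dbump_le x
    rw [abs_le] at h1 ⊢
    push_cast
    constructor <;> linarith [h1.1, h1.2]
  · rw [d1, d2]
    exact hmK.trans (integral_ge hm0 hδ hδm2)
  · intro a b
    refine (Set.encard_le_encard ?_).trans (solutions_le hm0 hδ hδm a b)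
    intro x hx
    exact hx.2

end

end Pool.Agent.Results.MP_d93447_an.FewIntersections
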